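import Mathlib

/-!
# MP_ad6ded_lc: the fixed point of `1 → 12122121`, `2 → 2` is not `k`-automatic for any `k ≥ 2`

The `1`s of the word are at the positions `p 0 < p 1 < ...`, with `p (n + 1) - p n = 2 + dl n`, where
`dl n` is the parity of the exponent of two in `n + 1`.  Equal long factors at positions whose
difference is `D` force `3 D = 7 * 2 ^ s * h + Δ` with `2 ^ s` large and `h`, `Δ` small.  If the word
were `k`-automatic, two numbers `n < n'` would have the same blocks `[k ^ e n, k ^ e (n + 1))` for all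
`e`, and comparing the relations for different `e` shows that `k` is a power of two.  For these `k` the
blocks at the numbers `7 (64 ^ v - 1) / 9` are `4 ^ s`-blocks which begin with the suffix of the
word starting at `v`, so that the word would be eventually periodic.
-/

set_option autoImplicit false

namespace Pool.Agent.Results.MP_ad6ded_lc.NotAutomatic

/-- The words of the problem: `X n` is `x_{n+1}`. -/
def X : ℕ → List ℕ
  | 0 => [1, 2]
  | n + 1 => X n ++ X n ++ (X n).reverse ++ (X n).reverse ++ [2]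

/-- The infinite word: `a n` is the letter at the position `n` of `X n`. -/
def a (n : ℕ) : ℕ := (X n).getD n 0

/-- The `k`-kernel of the sequence `b`. -/
def kernel (k : ℕ) (b : ℕ → ℕ) : Set (ℕ → ℕ) :=
  {s | ∃ e j : ℕ, j < k ^ e ∧ s = fun n => b (k ^ e * n + j)}

/-- The sequence `b` is `k`-automatic: its `k`-kernel is finite. -/
def Automatic (k : ℕ) (b : ℕ → ℕ) : Prop := (kernel k b).Finite

/-! ### The gaps -/

/-- `dl n` is the parity of the exponent of `2` in `n + 1`. -/
def dl (n : ℕ) : ℕ := if h : n % 2 = 0 then 0 else 1 - dl (n / 2)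
  termination_by n
  decreasing_by omega

theorem dl_even (n : ℕ) : dl (2 * n) = 0 := by
  rw [dl]
  simp

theorem dl_odd (n : ℕ) : dl (2 * n + 1) = 1 - dl n := by
  rw [dl]
  rw [dif_neg (by omega)]
  congr 2
  omega

theorem dl_le (n : ℕ) : dl n ≤ 1 := by
  rw [dl]
  split_ifs
  · omega
  · omega

/-- The position of the `n`-th `1`. -/
def p : ℕ → ℕ
  | 0 => 0
  | n + 1 => p n + 2 + dl n

theorem p_succ (n : ℕ) : p (n + 1) = p n + 2 + dl n := rfl

theorem p_lt_succ (n : ℕ) : p n < p (n + 1) := by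
  rw [p_succ]
  omega

theorem p_strictMono : StrictMono p := strictMono_nat_of_lt_succ p_lt_succ

theorem p_add_le (n t : ℕ) : p (n + t) ≤ p n + 3 * t := by
  induction t with
  | zero => simp
  | succ t ih =>
    rw [← add_assoc, p_succ]
    have := dl_le (n + t)
    omega

open Classical in
/-- the letters, from the positions of the ones -/
noncomputable def b (m : ℕ) : ℕ := if ∃ n, p n = m then 1 else 2

theorem b_p (n : ℕ) : b (p n) = 1 := by
  unfold b
  rw [if_pos ⟨n, rfl⟩]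

theorem b_eq_one {m : ℕ} (h : b m = 1) : ∃ n, p n = m := by
  unfold b at h
  by_contra hn
  rw [if_neg hn] at h
  omega

theorem b_eq_two {m : ℕ} (h : ¬ ∃ n, p n = m) : b m = 2 := by
  unfold b
  rw [if_neg h]

theorem b_cases (m : ℕ) : b m = 1 ∨ b m = 2 := by
  unfold b
  split_ifs
  · exact Or.inl rfl
  · exact Or.inr rfl

/-! ### The words -/

/-- the morphism -/
def phi (w : List ℕ) : List ℕ := w.flatMap fun c => if c = 1 then [1, 2, 1, 2, 2, 1, 2, 1] else [2]

theorem phi_append (v w : List ℕ) : phi (v ++ w) = phi v ++ phi w := by simp [phi]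

theorem phi_reverse (w : List ℕ) : (phi w).reverse = phi w.reverse := by
  induction w with
  | nil => rfl
  | cons c w ih =>
    have h1 : phi (c :: w) = phi [c] ++ phi w := by simp [phi]
    have h2 : (phi [c]).reverse = phi [c] := by
      unfold phi
      by_cases h : c = 1
      · subst h; rfl
      · simp [h]
    rw [h1, List.reverse_append, ih, h2, List.reverse_cons, phi_append]

theorem X_succ (n : ℕ) : X (n + 1) = phi (X n) := by
  induction n with
  | zero => rfl
  | succ n ih =>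
    have h2 : phi [2] = [2] := rfl
    conv_lhs => rw [X, ih]
    conv_rhs => rw [X]
    simp only [phi_append, phi_reverse, h2]

/-- the block of the `i`-th one -/
def blk (i : ℕ) : List ℕ := 1 :: List.replicate (1 + dl i) 2

/-- the first `n` blocks -/
def W (n : ℕ) : List ℕ := (List.range n).flatMap blk

theorem W_succ (n : ℕ) : W (n + 1) = W n ++ blk n := by
  simp [W, List.range_succ]

theorem phi_replicate (m : ℕ) : phi (List.replicate m 2) = List.replicate m 2 := by
  induction m with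
  | zero => rfl
  | succ m ih =>
    rw [List.replicate_succ]
    have : phi (2 :: List.replicate m 2) = 2 :: phi (List.replicate m 2) := by simp [phi]
    rw [this, ih]

theorem phi_blk (i : ℕ) :
    phi (blk i) = blk (4 * i) ++ blk (4 * i + 1) ++ blk (4 * i + 2) ++ blk (4 * i + 3) := by
  have h0 : dl (4 * i) = 0 := by
    rw [show 4 * i = 2 * (2 * i) by ring, dl_even]
  have h1 : dl (4 * i + 1) = 1 := by
    rw [show 4 * i + 1 = 2 * (2 * i) + 1 by ring, dl_odd, dl_even]
  have h2 : dl (4 * i + 2) = 0 := by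
    rw [show 4 * i + 2 = 2 * (2 * i + 1) by ring, dl_even]
  have h3 : dl (4 * i + 3) = dl i := by
    rw [show 4 * i + 3 = 2 * (2 * i + 1) + 1 by ring, dl_odd, dl_odd]
    have := dl_le i
    omega
  have h4 : phi (blk i) = [1, 2, 1, 2, 2, 1, 2, 1] ++ phi (List.replicate (1 + dl i) 2) := by
    simp [phi, blk]
  rw [h4, phi_replicate]
  simp [blk, h0, h1, h2, h3]

theorem phi_W (n : ℕ) : phi (W n) = W (4 * n) := by
  induction n with
  | zero => rfl
  | succ n ih =>
    rw [W_succ, phi_append, ih, phi_blk]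
    rw [show 4 * (n + 1) = 4 * n + 1 + 1 + 1 + 1 by ring, W_succ, W_succ, W_succ, W_succ]
    simp only [List.append_assoc]

theorem X_eq (n : ℕ) : X n = W (4 ^ n) := by
  induction n with
  | zero =>
    have : dl 0 = 0 := dl_even 0
    simp [X, W, blk, this]
  | succ n ih => rw [X_succ, ih, phi_W, pow_succ, mul_comm]

theorem W_length (n : ℕ) : (W n).length = p n := by
  induction n with
  | zero => rfl
  | succ n ih =>
    rw [W_succ, List.length_append, ih, p_succ, blk]
    simp only [List.length_cons, List.length_replicate]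
    omega

theorem between {n m : ℕ} (h1 : p n < m) (h2 : m < p (n + 1)) : ¬ ∃ j, p j = m := by
  rintro ⟨j, rfl⟩
  have h3 := p_strictMono.lt_iff_lt.1 h1
  have h4 := p_strictMono.lt_iff_lt.1 h2
  omega

theorem W_get (N : ℕ) : ∀ i < p N, (W N)[i]? = some (b i) := by
  induction N with
  | zero =>
    intro i hi
    exact absurd hi (by simp [p])
  | succ N ih =>
    intro i hi
    rw [W_succ]
    rcases Nat.lt_or_ge i (p N) with h | h
    · rw [List.getElem?_append_left (by rw [W_length]; exact h)]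
      exact ih i h
    · rw [List.getElem?_append_right (by rw [W_length]; exact h), W_length]
      rcases Nat.eq_or_lt_of_le h with h' | h'
      · rw [← h', b_p]
        simp [blk]
      · rw [b_eq_two (between h' hi), blk]
        obtain ⟨r, hr⟩ : ∃ r, i - p N = r + 1 := ⟨i - p N - 1, by omega⟩
        rw [hr, List.getElem?_cons_succ, List.getElem?_replicate, if_pos]
        rw [p_succ] at hi
        omega

theorem le_p (n : ℕ) : 2 * n ≤ p n := by
  induction n with
  | zero => simp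
  | succ n ih =>
    rw [p_succ]
    omega

theorem lt_X_length (n : ℕ) : n < (X n).length := by
  rw [X_eq, W_length]
  have h1 := le_p (4 ^ n)
  have h2 : n < 4 ^ n := Nat.lt_pow_self (by norm_num)
  omega

theorem X_get (n i : ℕ) (h : i < (X n).length) : (X n)[i] = b i := by
  have h1 := W_get (4 ^ n) i (by rw [← W_length, ← X_eq]; exact h)
  rw [← X_eq] at h1
  rw [List.getElem?_eq_getElem h] at h1
  exact Option.some.inj h1

theorem a_eq (n : ℕ) : a n = b n := by
  have h := lt_X_length n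
  unfold a
  rw [List.getD_eq_getElem _ _ h]
  exact X_get n n h

/-! ### Equal factors -/

theorem exists_first (u : ℕ) : ∃ i, u ≤ p i ∧ p i ≤ u + 2 := by
  classical
  have hex : ∃ i, u ≤ p i := ⟨u, by have := le_p u; omega⟩
  refine ⟨Nat.find hex, Nat.find_spec hex, ?_⟩
  rcases Nat.eq_zero_or_pos (Nat.find hex) with h | h
  · rw [h]
    simp [p]
  · obtain ⟨j, hj⟩ : ∃ j, Nat.find hex = j + 1 := ⟨Nat.find hex - 1, by omega⟩
    have h1 : ¬ u ≤ p j := Nat.find_min hex (by omega)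
    rw [hj, p_succ]
    have := dl_le j
    omega

theorem window (u u' L : ℕ) (huu : u < u') (hL : 3 ≤ L) (h : ∀ t < L, b (u + t) = b (u' + t)) :
    ∃ i d, 0 < d ∧ p (i + d) = p i + (u' - u) ∧
      ∀ t, 3 * t + 5 < L → dl (i + t) = dl (i + d + t) := by
  obtain ⟨i, hi1, hi2⟩ := exists_first u
  have hD : 0 < u' - u := by omega
  have tr : ∀ y, u ≤ y → y < u + L → b (y + (u' - u)) = b y := by
    intro y hy1 hy2
    have := h (y - u) (by omega)
    rw [show u + (y - u) = y by omega, show u' + (y - u) = y + (u' - u) by omega] at this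
    exact this.symm
  have h1 : b (p i + (u' - u)) = 1 := by
    rw [tr _ hi1 (by omega), b_p]
  obtain ⟨i', hi'⟩ := b_eq_one h1
  have hlt : i < i' := p_strictMono.lt_iff_lt.1 (by omega)
  obtain ⟨d, rfl⟩ : ∃ d, i' = i + d := ⟨i' - i, by omega⟩
  have key : ∀ t, p (i + t) < u + L → p (i + d + t) = p (i + t) + (u' - u) := by
    intro t
    induction t with
    | zero =>
      intro _
      simpa using hi'
    | succ t ih =>
      intro ht
      have hlt1 := p_lt_succ (i + t)
      rw [← add_assoc] at ht ⊢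
      rw [← add_assoc]
      have h2 := ih (by omega)
      have hui : u ≤ p (i + t) := hi1.trans (p_strictMono.monotone (by omega))
      have h3 : b (p (i + t + 1) + (u' - u)) = 1 := by
        rw [tr _ (by omega) ht, b_p]
      obtain ⟨m, hm⟩ := b_eq_one h3
      have h4 : i + d + t < m := p_strictMono.lt_iff_lt.1 (by omega)
      have h5 : ¬ i + d + t + 1 < m := by
        intro h5
        have h6 := p_strictMono h5
        have h7 := p_lt_succ (i + d + t)
        have h8 : b (p (i + d + t + 1) - (u' - u)) = 1 := by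
          rw [← tr _ (by omega) (by omega), Nat.sub_add_cancel (by omega), b_p]
        exact between (n := i + t) (m := p (i + d + t + 1) - (u' - u)) (by omega) (by omega)
          (b_eq_one h8)
      have h9 : m = i + d + t + 1 := by omega
      rw [← h9, hm]
  refine ⟨i, d, by omega, by simpa using key 0 (by simp only [add_zero]; omega), ?_⟩
  intro t ht
  have h2 := p_add_le i (t + 1)
  have h3 := key (t + 1) (by omega)
  have h4 := key t (by
    have := p_lt_succ (i + t)
    rw [← add_assoc] at h2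
    omega)
  rw [← add_assoc, ← add_assoc, p_succ, p_succ] at h3
  omega

theorem div_bound (w : ℕ) (hw : w % 2 = 1) (s : ℕ) : ∀ i T : ℕ,
    (∀ t < T, dl (i + t) = dl (i + 2 ^ s * w + t)) → T < 2 ^ (s + 2) := by
  induction s with
  | zero =>
    intro i T h
    by_contra hT
    have hT' : 4 ≤ T := by simpa using hT
    obtain ⟨t, ht, j, hj⟩ : ∃ t < 4, ∃ j, i + t = 2 * (2 * j) + 1 := by
      have : i % 4 < 4 := Nat.mod_lt _ (by norm_num)
      refine ⟨(5 - i % 4) % 4, Nat.mod_lt _ (by norm_num), (i + (5 - i % 4) % 4) / 4, by omega⟩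
    have h1 := h t (by omega)
    rw [hj, dl_odd, dl_even] at h1
    obtain ⟨l, hl⟩ : ∃ l, i + 2 ^ 0 * w + t = 2 * l := ⟨(i + 2 ^ 0 * w + t) / 2, by omega⟩
    rw [hl, dl_even] at h1
    omega
  | succ s ih =>
    intro i T h
    have h1 := ih (i / 2) (T / 2) (by
      intro t ht
      have h2 := h (2 * (i / 2) + 2 * t + 1 - i) (by omega)
      rw [show i + (2 * (i / 2) + 2 * t + 1 - i) = 2 * (i / 2 + t) + 1 by omega,
        show i + 2 ^ (s + 1) * w + (2 * (i / 2) + 2 * t + 1 - i) =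
          2 * (i / 2 + 2 ^ s * w + t) + 1 by rw [pow_succ]; ring_nf; omega, dl_odd, dl_odd] at h2
      have h3 := dl_le (i / 2 + t)
      have h4 := dl_le (i / 2 + 2 ^ s * w + t)
      omega)
    have h5 : 2 ^ (s + 1 + 2) = 2 * 2 ^ (s + 2) := by ring
    omega

/-- partial sums of `dl` -/
def cc : ℕ → ℕ
  | 0 => 0
  | n + 1 => cc n + dl n

theorem p_eq (n : ℕ) : p n = 2 * n + cc n := by
  induction n with
  | zero => rfl
  | succ n ih =>
    rw [p_succ, ih, cc]
    ring

theorem cc_half (n : ℕ) : cc n + cc (n / 2) = n / 2 := by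
  induction n with
  | zero => rfl
  | succ n ih =>
    rcases Nat.even_or_odd' n with ⟨j, rfl | rfl⟩
    · rw [cc, dl_even]
      rw [show (2 * j + 1) / 2 = j by omega]
      rw [show 2 * j / 2 = j by omega] at ih
      omega
    · rw [cc, dl_odd]
      rw [show (2 * j + 1 + 1) / 2 = j + 1 by omega]
      rw [show (2 * j + 1) / 2 = j by omega] at ih
      rw [show cc (j + 1) = cc j + dl j from rfl]
      have := dl_le j
      omega

theorem cc_pow (s : ℕ) : ∀ i : ℕ,
    |3 * ((cc (i + 2 ^ s) : ℤ) - cc i) - 2 ^ s| ≤ 2 := by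
  induction s with
  | zero =>
    intro i
    rw [pow_zero, show cc (i + 1) = cc i + dl i from rfl]
    have := dl_le i
    push_cast
    rw [abs_le]
    constructor <;> omega
  | succ s ih =>
    intro i
    have h1 := ih (i / 2)
    have h2 := cc_half i
    have h3 := cc_half (i + 2 ^ (s + 1))
    have h4 : (i + 2 ^ (s + 1)) / 2 = i / 2 + 2 ^ s := by
      rw [pow_succ]
      omega
    rw [h4] at h3
    have h2' : (cc i : ℤ) + cc (i / 2) = ((i / 2 : ℕ) : ℤ) := by exact_mod_cast h2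
    have h3' : (cc (i + 2 ^ (s + 1)) : ℤ) + cc (i / 2 + 2 ^ s) = ((i / 2 : ℕ) : ℤ) + 2 ^ s := by
      exact_mod_cast h3
    have e : 3 * ((cc (i + 2 ^ (s + 1)) : ℤ) - cc i) - 2 ^ (s + 1) =
        - (3 * ((cc (i / 2 + 2 ^ s) : ℤ) - cc (i / 2)) - 2 ^ s) := by
      have e2 : (2 : ℤ) ^ (s + 1) = 2 * 2 ^ s := by ring
      rw [e2]
      linarith
    rw [e, abs_neg]
    exact h1

theorem cc_mul (s h : ℕ) : ∀ i : ℕ,
    |3 * ((cc (i + 2 ^ s * h) : ℤ) - cc i) - 2 ^ s * h| ≤ 2 * h := by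
  induction h with
  | zero =>
    intro i
    simp
  | succ h ih =>
    intro i
    have h1 := ih i
    have h2 := cc_pow s (i + 2 ^ s * h)
    rw [show i + 2 ^ s * (h + 1) = i + 2 ^ s * h + 2 ^ s by ring]
    rw [abs_le] at h1 h2 ⊢
    push_cast
    constructor <;> linarith [h1.1, h1.2, h2.1, h2.2]

/-- Equal factors of length `L` at a distance `D`. -/
theorem main_rel (u u' L : ℕ) (huu : u < u') (hL : 3 ≤ L)
    (h : ∀ t < L, b (u + t) = b (u' + t)) :
    ∃ (s w : ℕ) (Δ : ℤ), 0 < w ∧ 3 * ((u' : ℤ) - u) = 7 * 2 ^ s * w + Δ ∧ |Δ| ≤ 2 * w ∧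
      L ≤ 20 * 2 ^ s ∧ (w : ℤ) * (5 * 2 ^ s) ≤ 3 * ((u' : ℤ) - u) := by
  obtain ⟨i, d, hd, hp, hg⟩ := window u u' L huu hL h
  obtain ⟨s, w, hw, hdw⟩ := Nat.exists_eq_two_pow_mul_odd (Nat.pos_iff_ne_zero.1 hd)
  subst hdw
  have hw' : w % 2 = 1 := Nat.odd_iff.1 hw
  have hT := div_bound w hw' s i ((L - 3) / 3) (by
    intro t ht
    exact hg t (by omega))
  have h1 := cc_mul s w i
  have hwpos : 0 < w := by omega
  have h2 : 3 * ((u' : ℤ) - u) = 7 * 2 ^ s * w +
      (3 * ((cc (i + 2 ^ s * w) : ℤ) - cc i) - 2 ^ s * w) := by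
    rw [p_eq, p_eq] at hp
    have h3 : (2 * (i + 2 ^ s * w) + cc (i + 2 ^ s * w) : ℤ) = 2 * i + cc i + ((u' : ℤ) - u) := by
      have h4 : ((u' - u : ℕ) : ℤ) = (u' : ℤ) - u := by
        rw [Nat.cast_sub huu.le]
      rw [← h4]
      exact_mod_cast hp
    linarith
  refine ⟨s, w, _, hwpos, h2, h1, ?_, ?_⟩
  · have h5 : 2 ^ (s + 2) = 4 * 2 ^ s := by ring
    have h6 : 1 ≤ 2 ^ s := Nat.one_le_two_pow
    omega
  · rw [h2]
    rw [abs_le] at h1
    have h6 : (1 : ℤ) ≤ 2 ^ s := one_le_pow₀ (by norm_num)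
    have h7 : (w : ℤ) ≤ w * 2 ^ s := by
      have : (0 : ℤ) ≤ w := by positivity
      nlinarith
    nlinarith [h1.1]

theorem not_periodic (v v' : ℕ) (hv : v < v') (h : ∀ t, b (v + t) = b (v' + t)) : False := by
  obtain ⟨s, w, Δ, hw, -, -, h3, h4⟩ := main_rel v v' (12 * (v' - v) + 3) hv (by omega)
    (fun t _ => h t)
  have h5 : ((v' - v : ℕ) : ℤ) = (v' : ℤ) - v := by
    rw [Nat.cast_sub hv.le]
  have h6 : (12 * ((v' : ℤ) - v) + 3) ≤ 20 * 2 ^ s := by
    rw [← h5]
    exact_mod_cast h3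
  have h7 : (1 : ℤ) ≤ w := by exact_mod_cast hw
  have h8 : (0 : ℤ) < 5 * 2 ^ s := by positivity
  nlinarith

/-! ### The finite kernel -/

theorem exists_pair (k : ℕ) (hK : (kernel k b).Finite) (f : ℕ → ℕ) :
    ∃ v v', v < v' ∧ ∀ e j, j < k ^ e → b (k ^ e * f v + j) = b (k ^ e * f v' + j) := by
  classical
  have : Finite (kernel k b) := hK
  obtain ⟨v, v', hne, hvv⟩ := Finite.exists_ne_map_eq_of_infinite
    (fun (v : ℕ) (s : kernel k b) => decide (s.1 (f v) = 1))
  have key : ∀ e j, j < k ^ e → b (k ^ e * f v + j) = b (k ^ e * f v' + j) := by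
    intro e j hj
    have h1 := congrFun hvv ⟨fun n => b (k ^ e * n + j), e, j, hj, rfl⟩
    have h2 : (b (k ^ e * f v + j) = 1) ↔ (b (k ^ e * f v' + j) = 1) := by
      simpa using h1
    rcases b_cases (k ^ e * f v + j) with h3 | h3
    · rw [h3, h2.1 h3]
    · rcases b_cases (k ^ e * f v' + j) with h4 | h4
      · exact absurd (h2.2 h4) (by omega)
      · rw [h3, h4]
  rcases Nat.lt_or_gt_of_ne hne with h | h
  · exact ⟨v, v', h, key⟩
  · exact ⟨v', v, h, fun e j hj => (key e j hj).symm⟩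

theorem pow_two_of (k : ℕ) (hk : 2 ≤ k) (hK : (kernel k b).Finite) : ∃ f, k = 2 ^ f := by
  obtain ⟨n, n', hn, hb⟩ := exists_pair k hK id
  set h := n' - n with hh
  have hcast : ((n' : ℤ) - n) = h := by
    rw [hh, Nat.cast_sub hn.le]
  have hk3 : ∀ e, 2 ≤ e → 3 ≤ k ^ e := by
    intro e he
    calc 3 ≤ 2 ^ 2 := by norm_num
      _ ≤ k ^ 2 := Nat.pow_le_pow_left hk 2
      _ ≤ k ^ e := Nat.pow_le_pow_right (by omega) he
  have rel : ∀ e : ℕ, 2 ≤ e → ∃ (s w : ℕ) (Δ : ℤ), 0 < w ∧
      3 * (h : ℤ) * (k : ℤ) ^ e = 7 * 2 ^ s * w + Δ ∧ |Δ| ≤ 2 * w ∧ k ^ e ≤ 20 * 2 ^ s ∧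
      w ≤ 12 * h := by
    intro e he
    obtain ⟨s, w, Δ, h1, h2, h3, h4, h5⟩ := main_rel (k ^ e * n) (k ^ e * n') (k ^ e)
      (Nat.mul_lt_mul_of_pos_left hn (by positivity)) (hk3 e he) (fun t ht => hb e t ht)
    have h6 : (((k ^ e * n' : ℕ) : ℤ) - ((k ^ e * n : ℕ) : ℤ)) = h * (k : ℤ) ^ e := by
      push_cast
      rw [← hcast]
      ring
    rw [h6] at h2 h5
    refine ⟨s, w, Δ, h1, by rw [← h2]; ring, h3, h4, ?_⟩
    have h7 : ((k : ℤ)) ^ e ≤ 20 * 2 ^ s := by exact_mod_cast h4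
    have h8 : (w : ℤ) * (5 * 2 ^ s) ≤ (12 * h) * (5 * 2 ^ s) := by
      have : (0 : ℤ) ≤ h := by positivity
      nlinarith
    have h9 : (0 : ℤ) < 5 * 2 ^ s := by positivity
    have h10 := le_of_mul_le_mul_right h8 h9
    exact_mod_cast h10
  choose! s w Δ hw hr hΔ hs hwb using rel
  -- pigeonhole
  let F : Finset (ℕ × ℤ) := Finset.range (12 * h + 1) ×ˢ Finset.Icc (-(24 * h : ℤ)) (24 * h)
  let N := F.card
  obtain ⟨e, he, e', he', hne, hee⟩ := Finset.exists_ne_map_eq_of_card_lt_of_maps_to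
    (s := Finset.Icc (N + 3) (N + 3 + N)) (t := F) (f := fun e => (w e, Δ e))
    (by rw [Nat.card_Icc]; omega) (by
      intro e he
      have he1 := (Finset.mem_Icc.1 he).1
      have h1 := hwb e (by omega)
      have h2 := hΔ e (by omega)
      rw [abs_le] at h2
      have h1' : (w e : ℤ) ≤ 12 * h := by exact_mod_cast h1
      simp only [F, Finset.coe_product, Set.mem_prod, Finset.coe_range, Set.mem_Iio,
        Finset.coe_Icc, Set.mem_Icc]
      refine ⟨by omega, by linarith, by linarith⟩)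
  wlog hlt : e < e' generalizing e e'
  · exact this e' he' e he hne.symm hee.symm (by omega)
  obtain ⟨t, rfl⟩ : ∃ t, e' = e + t := ⟨e' - e, by omega⟩
  simp only [Finset.mem_Icc] at he he'
  simp only [Prod.mk.injEq] at hee
  obtain ⟨hw1, hΔ1⟩ := hee
  have r1 := hr e (by omega)
  have r2 := hr (e + t) (by omega)
  have r3 := hΔ e (by omega)
  have r4 := hs e (by omega)
  have r5 := hw e (by omega)
  rw [← hw1, ← hΔ1, pow_add] at r2
  -- the comparison
  have ht1 : 1 ≤ t := by omega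
  have htN : t ≤ N := by omega
  have hkt : (2 : ℤ) ≤ (k : ℤ) ^ t := by
    have : 2 ≤ k ^ t := le_trans hk (Nat.le_self_pow (by omega) k)
    exact_mod_cast this
  have main : 7 * (w e : ℤ) * (2 ^ s (e + t) - 2 ^ s e * (k : ℤ) ^ t) =
      Δ e * ((k : ℤ) ^ t - 1) := by
    have : 3 * (h : ℤ) * ((k : ℤ) ^ e * (k : ℤ) ^ t) =
        (7 * 2 ^ s e * (w e) + Δ e) * (k : ℤ) ^ t := by
      rw [← r1]
      ring
    rw [this] at r2
    linarith
  by_cases hz : (2 : ℤ) ^ s (e + t) - 2 ^ s e * (k : ℤ) ^ t = 0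
  · have h1 : (2 : ℕ) ^ s (e + t) = 2 ^ s e * k ^ t := by
      have : (2 : ℤ) ^ s (e + t) = 2 ^ s e * (k : ℤ) ^ t := by linarith
      exact_mod_cast this
    have h2 : k ∣ 2 ^ s (e + t) := by
      rw [h1]
      exact Dvd.dvd.mul_left (dvd_pow_self k (by omega)) _
    obtain ⟨f, -, hf⟩ := (Nat.dvd_prime_pow Nat.prime_two).1 h2
    exact ⟨f, hf⟩
  · exfalso
    have hbig : (2 : ℤ) ^ s e ≤ |(2 : ℤ) ^ s (e + t) - 2 ^ s e * (k : ℤ) ^ t| := by
      rcases Nat.lt_or_ge (s (e + t)) (s e) with h1 | h1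
      · have h2 : (2 : ℤ) ^ s (e + t) ≤ 2 ^ s e := pow_le_pow_right₀ (by norm_num) h1.le
        have h3 : (0 : ℤ) < 2 ^ s e := by positivity
        rw [abs_of_nonpos (by nlinarith)]
        nlinarith
      · obtain ⟨c, hc⟩ : ∃ c, s (e + t) = s e + c := ⟨s (e + t) - s e, by omega⟩
        have h2 : (2 : ℤ) ^ s (e + t) - 2 ^ s e * (k : ℤ) ^ t = 2 ^ s e * (2 ^ c - (k : ℤ) ^ t) := by
          rw [hc, pow_add]
          ring
        rw [h2] at hz ⊢
        have h3 : (2 ^ c - (k : ℤ) ^ t) ≠ 0 := by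
          intro h4
          apply hz
          rw [h4, mul_zero]
        rw [abs_mul, abs_of_nonneg (by positivity : (0 : ℤ) ≤ 2 ^ s e)]
        have h4 : 1 ≤ |(2 ^ c - (k : ℤ) ^ t)| := Int.one_le_abs h3
        have h5 : (0 : ℤ) < 2 ^ s e := by positivity
        nlinarith
    have h1 : 7 * (w e : ℤ) * |(2 : ℤ) ^ s (e + t) - 2 ^ s e * (k : ℤ) ^ t| =
        |Δ e| * ((k : ℤ) ^ t - 1) := by
      have h2 := congrArg abs main
      rw [abs_mul, abs_mul, abs_mul, abs_of_nonneg (by linarith : (0 : ℤ) ≤ (k : ℤ) ^ t - 1)] at h2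
      rw [← h2, abs_of_nonneg (by norm_num : (0 : ℤ) ≤ 7),
        abs_of_nonneg (by positivity : (0 : ℤ) ≤ (w e : ℤ))]
    have hwe : (1 : ℤ) ≤ w e := by exact_mod_cast r5
    have h2 : 7 * (w e : ℤ) * 2 ^ s e ≤ 2 * w e * ((k : ℤ) ^ t - 1) := by
      calc 7 * (w e : ℤ) * 2 ^ s e ≤
          7 * (w e : ℤ) * |(2 : ℤ) ^ s (e + t) - 2 ^ s e * (k : ℤ) ^ t| :=
            mul_le_mul_of_nonneg_left hbig (by positivity)
        _ = |Δ e| * ((k : ℤ) ^ t - 1) := h1
        _ ≤ 2 * w e * ((k : ℤ) ^ t - 1) := mul_le_mul_of_nonneg_right r3 (by linarith)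
    have h3 : 7 * (2 : ℤ) ^ s e ≤ 2 * ((k : ℤ) ^ t - 1) := by
      have : (w e : ℤ) * (7 * (2 : ℤ) ^ s e) ≤ (w e : ℤ) * (2 * ((k : ℤ) ^ t - 1)) := by linarith
      exact le_of_mul_le_mul_left this (by linarith)
    have h4 : ((k : ℤ)) ^ e ≤ 20 * 2 ^ s e := by exact_mod_cast r4
    have h5 : (k : ℤ) ^ t ≤ (k : ℤ) ^ N := pow_le_pow_right₀ (by exact_mod_cast (by omega : 1 ≤ k)) htN
    have h6 : (k : ℤ) ^ (N + 3) ≤ (k : ℤ) ^ e :=
      pow_le_pow_right₀ (by exact_mod_cast (by omega : 1 ≤ k)) he.1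
    have h7 : (8 : ℤ) ≤ (k : ℤ) ^ 3 := by
      have : 2 ^ 3 ≤ k ^ 3 := Nat.pow_le_pow_left hk 3
      exact_mod_cast this
    rw [pow_add] at h6
    have h8 : (0 : ℤ) < (k : ℤ) ^ N := by positivity
    nlinarith

/-! ### Powers of two -/

theorem dl_shift (m s : ℕ) : ∀ j, j + 1 < 2 ^ s → dl (2 ^ s * m + j) = dl j := by
  induction s with
  | zero =>
    intro j hj
    simp at hj
  | succ s ih =>
    intro j hj
    rcases Nat.even_or_odd' j with ⟨i, rfl | rfl⟩
    · rw [show 2 ^ (s + 1) * m + 2 * i = 2 * (2 ^ s * m + i) by ring, dl_even, dl_even]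
    · rw [show 2 ^ (s + 1) * m + (2 * i + 1) = 2 * (2 ^ s * m + i) + 1 by ring, dl_odd, dl_odd, ih]
      rw [pow_succ] at hj
      omega

theorem p_shift (m s : ℕ) : ∀ j, j + 1 ≤ 2 ^ s → p (2 ^ s * m + j) = p (2 ^ s * m) + p j := by
  intro j
  induction j with
  | zero =>
    intro _
    simp [p]
  | succ j ih =>
    intro hj
    rw [← add_assoc, p_succ, p_succ, ih (by omega), dl_shift m s j (by omega)]
    ring

theorem b_shift (m s y : ℕ) (hs : 1 ≤ s) (hy : y < 2 ^ s) : b (p (2 ^ s * m) + y) = b y := by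
  have h2 : 2 ≤ 2 ^ s := by
    calc 2 = 2 ^ 1 := by norm_num
      _ ≤ 2 ^ s := Nat.pow_le_pow_right (by norm_num) hs
  have hle := le_p (2 ^ s - 1)
  have hiff : (∃ n, p n = p (2 ^ s * m) + y) ↔ ∃ n, p n = y := by
    constructor
    · rintro ⟨n, hn⟩
      have h3 : 2 ^ s * m ≤ n := p_strictMono.le_iff_le.1 (by omega)
      obtain ⟨j, rfl⟩ : ∃ j, n = 2 ^ s * m + j := ⟨n - 2 ^ s * m, by omega⟩
      rcases Nat.lt_or_ge j (2 ^ s) with h4 | h4
      · rw [p_shift m s j (by omega)] at hn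
        exact ⟨j, by omega⟩
      · exfalso
        have h5 := p_shift m s (2 ^ s - 1) (by omega)
        have h6 : p (2 ^ s * m + (2 ^ s - 1)) < p (2 ^ s * m + j) := p_strictMono (by omega)
        omega
    · rintro ⟨n, hn⟩
      have h3 : n < 2 ^ s - 1 := p_strictMono.lt_iff_lt.1 (by omega)
      exact ⟨2 ^ s * m + n, by rw [p_shift m s n (by omega), hn]⟩
  unfold b
  by_cases h : ∃ n, p n = y
  · rw [if_pos h, if_pos (hiff.2 h)]
  · rw [if_neg h, if_neg (fun h' => h (hiff.1 h'))]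

theorem p_four (m : ℕ) : p (4 * m) = 7 * m + p m := by
  have h1 := cc_half (4 * m)
  have h2 := cc_half (2 * m)
  rw [show 4 * m / 2 = 2 * m by omega] at h1
  rw [show 2 * m / 2 = m by omega] at h2
  rw [p_eq, p_eq]
  omega

theorem p_four_one (m : ℕ) : p (4 * m + 1) = 7 * m + p m + 2 := by
  rw [p_succ, p_four, show 4 * m = 2 * (2 * m) by ring, dl_even]

/-- `A v = 7 (64 ^ v - 1) / 9` -/
def A : ℕ → ℕ
  | 0 => 0
  | v + 1 => 64 * A v + 49

/-- `M v = (64 ^ v - 1) / 3` -/
def M : ℕ → ℕ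
  | 0 => 0
  | v + 1 => 64 * M v + 21

theorem A_M (v : ℕ) : 3 * A v = 7 * M v := by
  induction v with
  | zero => rfl
  | succ v ih =>
    rw [A, M]
    omega

theorem p_M (v : ℕ) : p (M v) + v = A v := by
  induction v with
  | zero => rfl
  | succ v ih =>
    have h := A_M v
    rw [A, M, show 64 * M v + 21 = 4 * (4 * (4 * M v + 1) + 1) + 1 by ring, p_four_one, p_four_one,
      p_four_one]
    omega

theorem p_four_pow (s v : ℕ) : p (4 ^ s * M v) + v = 4 ^ s * A v := by
  induction s with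
  | zero =>
    rw [pow_zero, one_mul, one_mul]
    exact p_M v
  | succ s ih =>
    rw [show 4 ^ (s + 1) * M v = 4 * (4 ^ s * M v) by ring, p_four]
    have h := A_M v
    have h2 : 7 * (4 ^ s * M v) = 3 * (4 ^ s * A v) := by
      calc 7 * (4 ^ s * M v) = 4 ^ s * (7 * M v) := by ring
        _ = 4 ^ s * (3 * A v) := by rw [h]
        _ = 3 * (4 ^ s * A v) := by ring
    rw [h2, show 4 ^ (s + 1) * A v = 4 * (4 ^ s * A v) by ring]
    omega

theorem b_A (s v t : ℕ) (hs : 1 ≤ s) (ht : v + t < 4 ^ s) : b (4 ^ s * A v + t) = b (v + t) := by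
  rw [← p_four_pow, add_assoc]
  have h4 : 4 ^ s = 2 ^ (2 * s) := by rw [pow_mul]; norm_num
  rw [h4] at ht ⊢
  exact b_shift (M v) (2 * s) (v + t) (by omega) ht

theorem not_pow_two (f : ℕ) (hf : 1 ≤ f) (hK : (kernel (2 ^ f) b).Finite) : False := by
  obtain ⟨v, v', hv, hb⟩ := exists_pair (2 ^ f) hK A
  refine not_periodic v v' hv fun t => ?_
  set u := v' + t + 1 with hu
  have hpow : (2 ^ f) ^ (2 * u) = 4 ^ (f * u) := by
    rw [← pow_mul, show (4 : ℕ) = 2 ^ 2 by norm_num, ← pow_mul]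
    congr 1
    ring
  have hfu : u ≤ f * u := Nat.le_mul_of_pos_left u hf
  have hlt : v' + t < 4 ^ (f * u) := by
    calc v' + t < u := by omega
      _ ≤ f * u := hfu
      _ < 4 ^ (f * u) := Nat.lt_pow_self (by norm_num)
  have h1 := hb (2 * u) t (by rw [hpow]; omega)
  rw [hpow] at h1
  rw [b_A (f * u) v t (by omega) (by omega), b_A (f * u) v' t (by omega) hlt] at h1
  exact h1

/-- The infinite word `a` has every word `X n` as a prefix (and the lengths of the `X n` are
unbounded), and it is not `k`-automatic for any `k ≥ 2`. -/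
theorem result :
    (∀ n, n < (X n).length) ∧ (∀ (n i : ℕ) (h : i < (X n).length), a i = (X n)[i]) ∧
      ∀ k, 2 ≤ k → ¬ Automatic k a := by
  refine ⟨lt_X_length, fun n i h => by rw [a_eq, X_get], ?_⟩
  intro k hk hK
  have hab : a = b := funext a_eq
  unfold Automatic at hK
  rw [hab] at hK
  obtain ⟨f, rfl⟩ := pow_two_of k hk hK
  have hf : 1 ≤ f := by
    rcases Nat.eq_zero_or_pos f with h | h
    · subst h
      norm_num at hk
    · exact h
  exact not_pow_two f hf hK

end Pool.Agent.Results.MP_ad6ded_lc.NotAutomatic
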